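import Pool.Agent.N597.PV.GLP
set_option autoImplicit false

/-!
# A deterministic pivot rule which sees only improving directions needs polynomially many pivots
on all linear programs whose feasible region is a combinatorial cube or product of simplices

The starting results `AllDeterministicRules` and `SquareRootExponent` say: for every deterministic
pivot rule which sees only the visited vertices, their objective values and their improving
directions (without any bound on its computing power) there is an *abstract* objective function on
the `n`-cube, with one local maximum on every face, on which the rule makes
`2 ^ (n ^ (1/2 - o(1)))` steps. Here it is shown that nothing like this is true for linear programs.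

The `d + |ι|` constraints `A p q ≤ b p` of a linear program with `d` variables are numbered by pairs
`p = ⟨i, r⟩`, `i : ι`, `r : κ i` (for cubes: `|ι| = d`, all `κ i` have two elements). The feasible
region is combinatorially the product over `i` of simplices with `|κ i|` facets (`ProdLP`): for
every choice function `σ : ∀ i, κ i` there is exactly one point `x σ` at which all constraints not
chosen by `σ` are tight, and the chosen constraints `⟨i, σ i⟩` are strict at `x σ`. A pivot changes
one choice (`sw`). No assumption is made on the objective function `c` (it may be constant on edges).
One deterministic rule, which depends only on `ι`, `κ` and `d` and sees only which constraints are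
tight and which pivots are improving at the vertices visited so far, reaches an optimal vertex of
every such linear program, from every vertex, after at most `10 d ^ 6` improving pivots.

Proof. The rule keeps the list `S` of all orientations in the class which agree with everything seen
so far. In a face of dimension `m`, the vertex of second highest value is a neighbour of the top, so
for every orientation in `S` some facet through the present vertex has the property that the top of
the face is reached from the top of the facet in at most one step. The rule chooses a facet for which
this holds for the fraction `1 / m` of `S`, and goes to the top of the facet recursively. If after one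
more step it is not at the top of the face, then this fraction of `S` is refuted, and it tries again
from where it is. So `d + d (d + 1) (2 d + 1) / 6 * log N` steps are enough for every family with `N`
orientations (`Pool.Agent.N597.PV.G.family`), and `log N ≤ 9 d ^ 3` by Warren's theorem.
-/

namespace Pool.Agent.Results.MP_4d246d_lc.ProductsOfSimplices

open Finset Matrix Pool.Agent.N597.PV.G

/-- Let `κ i`, `i : ι`, be finite sets with at least two elements, `d = ∑ i, (|κ i| - 1)`. There is
a deterministic pivot rule (a function of the list of all pairs (visited vertex, set of its improving
switches), the present vertex first) which on every real linear program `max c q`, `A q ≤ b` with `d`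
variables and constraints numbered by `Sigma κ` whose feasible region is combinatorially the product
of simplices with `|κ i|` facets, from every vertex `x σ₀`, reaches an optimal vertex after at most
`10 d ^ 6` improving pivots. -/
theorem result (ι : Type) [Fintype ι] [DecidableEq ι] [Nonempty ι] (κ : ι → Type)
    [∀ i, Fintype (κ i)] [∀ i, DecidableEq (κ i)] [∀ i, Nontrivial (κ i)] (d : ℕ)
    (hd : Fintype.card (Sigma κ) = d + Fintype.card ι) :
    ∃ rule : List ((∀ i, κ i) × Finset (Sigma κ)) → Sigma κ,
      ∀ (A : Sigma κ → Fin d → ℝ) (b : Sigma κ → ℝ) (c : Fin d → ℝ)
        (x : (∀ i, κ i) → Fin d → ℝ), ProdLP A b x → ∀ σ₀ : ∀ i, κ i,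
      ∃ (T : ℕ) (w : ℕ → ∀ i, κ i), w 0 = σ₀ ∧
        (∀ t < T, c ⬝ᵥ x (w t) < c ⬝ᵥ x (w (t + 1)) ∧
          w (t + 1) = sw (w t) (rule (hist (improving fun σ => c ⬝ᵥ x σ) w t))) ∧
        (∀ q : Fin d → ℝ, (∀ p, A p ⬝ᵥ q ≤ b p) → c ⬝ᵥ q ≤ c ⬝ᵥ x (w T)) ∧
        T ≤ 10 * d ^ 6 := by
  obtain ⟨rule, h⟩ := linear_programs (J := Fin d) (κ := κ) (by simpa using hd)
  refine ⟨rule, fun A b c x hx σ₀ => ?_⟩
  obtain ⟨T, w, h0, h1, h2, h3⟩ := h A b c x hx σ₀
  exact ⟨T, w, h0, h1, h2, by simpa using h3⟩

end Pool.Agent.Results.MP_4d246d_lc.ProductsOfSimplices
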